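import Mathlib
import Pool.Agent.Lib.MP_b771e3_an.Mg.G001

set_option autoImplicit false
set_option maxHeartbeats 8000000

open Filter Topology

namespace Pool.Agent.Lib.MP_b771e3_an

/-- The exponent `49/50`. -/
noncomputable def sg : ℝ := 49 / 50

/-- The invariant in a phase of the first type (the last kept terms are `y²`, `y³` in the first
component): `v` is the potential at the marker of the previous phase, `u` the potential at the
marker of this phase, `m = 3` iff a cubic term has been kept in this phase. -/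
structure Inv (P : PD) (R S W : ℕ → ℝ) (K : ℝ) (n : ℕ) (u v : ℝ) (m : ℕ) : Prop where
  hm : m = 2 ∨ m = 3
  hJ : ¬ P.J2 n
  hI : 7 / 2 * P.c n ≤ 4 * P.ξ n - P.η n
  hZ : 215 / 100 * u ≤ 4 * P.ξ n - P.η n - 5 / 2 * P.c n
  hY : 212 / 100 * v ≤ 2 * P.η n - P.c n
  hu : 21 / 10 * v ≤ u
  h2 : m = 2 → P.c n ≤ P.η n
  h3 : m = 3 → 31 / 10 * v ≤ u
  hv : 1000 * (P.b + 1) ≤ v
  hS : S n ≤ Real.exp (K * v ^ sg)
  hR : R n ≤ Real.exp (K * v ^ sg) + W n * (Real.exp (K * v ^ sg) ^ 2 +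
    (if m = 3 then Real.exp (K * v ^ sg) ^ 3 else 0))

private lemma le_sg {q d : ℝ} (hq : 0 < q) (hd : 0 ≤ d) (h : d ^ 50 ≤ q ^ 49) : d ≤ q ^ sg := by
  have h1 : (q ^ sg) ^ 50 = q ^ 49 := by
    rw [← Real.rpow_natCast, ← Real.rpow_mul hq.le]
    have : sg * ((50 : ℕ) : ℝ) = ((49 : ℕ) : ℝ) := by norm_num [sg]
    rw [this, Real.rpow_natCast]
  refine (pow_le_pow_iff_left₀ hd (Real.rpow_nonneg hq.le _)
    (by norm_num : (50 : ℕ) ≠ 0)).1 ?_
  rw [h1]
  exact h

private lemma grow_sg {q d u v : ℝ} (hq : 0 < q) (hd : 0 ≤ d) (h : d ^ 50 ≤ q ^ 49)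
    (hv : 0 ≤ v) (hu : q * v ≤ u) : d * v ^ sg ≤ u ^ sg := by
  have h1 : (q * v) ^ sg ≤ u ^ sg :=
    Real.rpow_le_rpow (mul_nonneg hq.le hv) hu (by norm_num [sg])
  rw [Real.mul_rpow hq.le hv] at h1
  exact (mul_le_mul_of_nonneg_right (le_sg hq hd h) (Real.rpow_nonneg hv _)).trans h1

/-- the bound of `R` at the switch -/
private lemma switch_bound {K Wt E u v Wn Rn : ℝ} {m : ℕ} (hm : m = 2 ∨ m = 3) (hK : 0 ≤ K)
    (hKW : 1 + 2 * Wt ≤ Real.exp (3 / 100 * K)) (hv : 1 ≤ v) (hu : 21 / 10 * v ≤ u)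
    (h3 : m = 3 → 31 / 10 * v ≤ u) (hE : E = Real.exp (K * v ^ sg)) (hWn : 0 ≤ Wn)
    (hWn' : Wn ≤ Wt) (hR : Rn ≤ E + Wn * (E ^ 2 + (if m = 3 then E ^ 3 else 0))) :
    Rn ≤ Real.exp (K * u ^ sg) := by
  have hvs : 1 ≤ v ^ sg := Real.one_le_rpow hv (by norm_num [sg])
  have hE1 : 1 ≤ E := by
    rw [hE]
    exact Real.one_le_exp (mul_nonneg hK (by linarith))
  have hWt : 0 ≤ Wt := hWn.trans hWn'
  have hE12 : E ≤ E ^ 2 := by nlinarith
  have hE13 : E ^ 2 ≤ E ^ 3 := by nlinarith [sq_nonneg E]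
  have hE20 : 0 ≤ E ^ 2 := sq_nonneg E
  rcases hm with rfl | rfl
  · have h1 : 206 / 100 * v ^ sg ≤ u ^ sg :=
      grow_sg (q := 21 / 10) (by norm_num) (by norm_num) (by norm_num) (by linarith) hu
    have h2 : Rn ≤ (1 + 2 * Wt) * E ^ 2 := by
      rw [if_neg (by norm_num : ¬ (2 : ℕ) = 3), add_zero] at hR
      have : Wn * E ^ 2 ≤ Wt * E ^ 2 := mul_le_mul_of_nonneg_right hWn' hE20
      nlinarith [mul_nonneg hWt hE20]
    calc Rn ≤ (1 + 2 * Wt) * E ^ 2 := h2
      _ ≤ Real.exp (3 / 100 * K) * E ^ 2 := mul_le_mul_of_nonneg_right hKW hE20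
      _ = Real.exp (3 / 100 * K + 2 * (K * v ^ sg)) := by
          rw [hE, Real.exp_add, ← Real.exp_nat_mul]; norm_num
      _ ≤ Real.exp (K * u ^ sg) := by
          apply Real.exp_le_exp.2
          have : K * (3 / 100 + 2 * v ^ sg) ≤ K * u ^ sg :=
            mul_le_mul_of_nonneg_left (by linarith) hK
          linarith
  · have h1 : 303 / 100 * v ^ sg ≤ u ^ sg :=
      grow_sg (q := 31 / 10) (by norm_num) (by norm_num) (by norm_num) (by linarith) (h3 rfl)
    have h2 : Rn ≤ (1 + 2 * Wt) * E ^ 3 := by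
      rw [if_pos rfl] at hR
      have : Wn * (E ^ 2 + E ^ 3) ≤ Wt * (E ^ 2 + E ^ 3) :=
        mul_le_mul_of_nonneg_right hWn' (by positivity)
      have h4 : Wt * (E ^ 2 + E ^ 3) ≤ Wt * (2 * E ^ 3) :=
        mul_le_mul_of_nonneg_left (by linarith) hWt
      linarith
    calc Rn ≤ (1 + 2 * Wt) * E ^ 3 := h2
      _ ≤ Real.exp (3 / 100 * K) * E ^ 3 := mul_le_mul_of_nonneg_right hKW (by positivity)
      _ = Real.exp (3 / 100 * K + 3 * (K * v ^ sg)) := by
          rw [hE, Real.exp_add, ← Real.exp_nat_mul]; norm_num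
      _ ≤ Real.exp (K * u ^ sg) := by
          apply Real.exp_le_exp.2
          have : K * (3 / 100 + 3 * v ^ sg) ≤ K * u ^ sg :=
            mul_le_mul_of_nonneg_left (by linarith) hK
          linarith

open Classical in
/-- One step of the invariant: either the phase continues (with the same `v`) or the type changes
(the new `v` is the old `u`). -/
theorem inv_step (P : PD) (R S W w : ℕ → ℝ) (K Wt : ℝ) (hK : 0 ≤ K) (hW0 : ∀ n, 0 ≤ W n)
    (hWt : ∀ n, W n ≤ Wt) (hWs : ∀ n, W (n + 1) = W n + w n) (hw : ∀ n, 0 ≤ w n)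
    (hKW : 1 + 2 * Wt ≤ Real.exp (3 / 100 * K)) (hR0 : ∀ n, 0 ≤ R n) (hS0 : ∀ n, 0 ≤ S n)
    (n : ℕ)
    (hR : R (n + 1) ≤ R n + w n * ((if P.I2 n then S n ^ 2 else 0) +
      (if P.I3 n then S n ^ 3 else 0)))
    (hS : S (n + 1) ≤ S n + w n * ((if P.J2 n then R n ^ 2 else 0) +
      (if P.J3 n then R n ^ 3 else 0)))
    (u v : ℝ) (m : ℕ) (h : Inv P R S W K n u v m) :
    (∃ u' m', Inv P R S W K (n + 1) u' v m') ∨ (∃ u', Inv P.swap S R W K (n + 1) u' u 2) := by
  obtain ⟨hm, hJ, hI, hZ, hY, hu, h2, h3, hv, hSE, hRE⟩ := h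
  have hb := P.bpos
  have ha := P.ha
  have hτ := P.hτ
  have hτ1 := P.hτ1
  have hab : P.b ≤ 4 * P.a := by nlinarith [P.hab]
  set E := Real.exp (K * v ^ sg) with hE
  have hv1 : 1 ≤ v := by linarith
  have hE0 : 0 ≤ E := (Real.exp_pos _).le
  -- the recursion
  have hJ3 : ¬ P.J3 n := fun h => hJ h.1
  have hS' : S (n + 1) ≤ S n := by
    rw [if_neg hJ, if_neg hJ3] at hS
    linarith
  have hSE' : S (n + 1) ≤ E := hS'.trans hSE
  have hS2 : S n ^ 2 ≤ E ^ 2 := pow_le_pow_left₀ (hS0 n) hSE 2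
  have hS3 : S n ^ 3 ≤ E ^ 3 := pow_le_pow_left₀ (hS0 n) hSE 3
  have hS20 : 0 ≤ S n ^ 2 := sq_nonneg _
  have hR3 : R (n + 1) ≤ E + W (n + 1) * (E ^ 2 + E ^ 3) := by
    have e1 : R n ≤ E + W n * (E ^ 2 + E ^ 3) := by
      refine hRE.trans ?_
      have : (if m = 3 then E ^ 3 else 0) ≤ E ^ 3 := by
        split_ifs
        · exact le_rfl
        · positivity
      have := mul_le_mul_of_nonneg_left (add_le_add_right this (E ^ 2)) (hW0 n)
      linarith
    have e2 : (if P.I2 n then S n ^ 2 else 0) + (if P.I3 n then S n ^ 3 else 0) ≤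
        E ^ 2 + E ^ 3 := by
      apply add_le_add
      · split_ifs
        · exact hS2
        · positivity
      · split_ifs
        · exact hS3
        · positivity
    have e3 := mul_le_mul_of_nonneg_left e2 (hw n)
    rw [hWs n]
    linarith
  have hR2 : m = 2 → R (n + 1) ≤ E + W (n + 1) * E ^ 2 := by
    intro hm2
    have hI3 : ¬ P.I3 n := fun h => absurd h.2 (not_lt.2 (h2 hm2))
    rw [if_neg hI3, add_zero] at hR
    have hm3 : m ≠ 3 := by omega
    rw [if_neg hm3, add_zero] at hRE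
    have e2 : (if P.I2 n then S n ^ 2 else 0) ≤ E ^ 2 := by
      split_ifs
      · exact hS2
      · positivity
    have e3 := mul_le_mul_of_nonneg_left e2 (hw n)
    rw [hWs n]
    linarith
  have hRm : R (n + 1) ≤ E + W (n + 1) * (E ^ 2 + (if m = 3 then E ^ 3 else 0)) := by
    rcases hm with hm2 | hm3
    · have hm3 : m ≠ 3 := by omega
      rw [if_neg hm3, add_zero]
      exact hR2 hm2
    · rw [if_pos hm3]
      exact hR3
  -- the path
  have hξs := P.ξs n
  have hηs := P.ηs n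
  have hcs := P.cs n
  have hkx0 := P.kx0 n
  have hky0 := P.ky0 n
  have hkxb := P.kxb n
  have hkyb := P.kyb n
  have hc1 := P.cone1 n
  have hc2 := P.cone2 n
  have hc1' := P.cone1 (n + 1)
  have hc2' := P.cone2 (n + 1)
  have hξa := P.ξa n
  have hηa := P.ηa n
  have hX := P.hX n
  have hYY := P.hY n
  have hcn := P.c_nonneg n
  have hcn' := P.c_nonneg (n + 1)
  have hηl : 1060 * (P.b + 1) ≤ P.η n := by linarith
  have hξl : P.η n ≤ 2 * P.ξ n := by nlinarith
  have hξp : 0 < P.ξ n := by linarith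
  have hξp' : 0 < P.ξ (n + 1) := by linarith
  have hηp' : 0 < P.η (n + 1) := by linarith
  have hx2 : 0 < P.kx n → P.kx n ≤ 2 * (P.η (n + 1) - P.η n) := by
    intro hk
    have := (P.clipx n hk).2
    nlinarith
  have hy2 : 0 < P.ky n → P.ky n ≤ 2 * (P.ξ (n + 1) - P.ξ n) := by
    intro hk
    have := (P.clipy n hk).2
    nlinarith
  have hMξ : P.τ * P.M (n + 1) ≤ P.ξ (n + 1) / 1000 := by
    have : P.M (n + 1) ≤ P.ξ (n + 1) := min_le_left _ _
    nlinarith [P.M_pos (n + 1)]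
  have hMη : P.τ * P.M (n + 1) ≤ P.η (n + 1) / 1000 := by
    have : P.M (n + 1) ≤ P.η (n + 1) := min_le_right _ _
    nlinarith [P.M_pos (n + 1)]
  have hM0 : 0 ≤ P.τ * P.M (n + 1) := mul_nonneg hτ.le (P.M_pos (n + 1)).le
  have hτξ' : P.τ * P.ξ (n + 1) ≤ P.ξ (n + 1) / 1000 := by nlinarith
  have hτη' : P.τ * P.η (n + 1) ≤ P.η (n + 1) / 1000 := by nlinarith
  have hτξ0' : 0 ≤ P.τ * P.ξ (n + 1) := mul_nonneg hτ.le hξp'.le
  have hτη0' : 0 ≤ P.τ * P.η (n + 1) := mul_nonneg hτ.le hηp'.le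
  by_cases hJ' : P.J2 (n + 1)
  · -- the type changes
    right
    have hkx : P.kx n = 0 := by
      rcases hkx0.lt_or_eq with hk | hk
      · exact absurd hJ' (P.of_kx n hk).2.1
      · exact hk.symm
    rw [hkx] at hξs hcs
    have hJJ : 2 * P.ξ (n + 1) - P.η (n + 1) ≤ P.c (n + 1) + P.τ * P.M (n + 1) := hJ'
    have hZ' : 215 / 100 * u - 5 / 2 * P.b ≤
        4 * P.ξ (n + 1) - P.η (n + 1) - 5 / 2 * P.c (n + 1) := by linarith
    -- bounds in the two cases
    have key : (¬ P.I2 (n + 1) ∧ 7 / 2 * P.c (n + 1) ≤ 4 * P.η (n + 1) - P.ξ (n + 1)) ∧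
        P.c (n + 1) ≤ 801 / 1000 * P.ξ (n + 1) + P.b ∧
        0 ≤ 185 / 100 * P.η (n + 1) - P.ξ (n + 1) - 1425 / 1000 * P.c (n + 1) := by
      rcases hky0.lt_or_eq with hk | hk
      · have h1 := P.of_ky n hk
        have h4 := (P.clipy n hk).1
        refine ⟨h1.2, ?_, ?_⟩
        · nlinarith
        · nlinarith
      · rw [← hk] at hηs hcs
        have h5 : 7 / 2 * P.c (n + 1) ≤ 4 * P.ξ (n + 1) - P.η (n + 1) := by linarith
        refine ⟨P.J_of_I (n + 1) h5 hJ', ?_, ?_⟩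
        · linarith
        · linarith
    obtain ⟨⟨k1, k2⟩, k3, k4⟩ := key
    refine ⟨P.η (n + 1) - P.c (n + 1) / 2, Or.inl rfl, ?_, k2, ?_, ?_, ?_, fun _ => ?_,
      fun h => absurd h (by norm_num), ?_, ?_, ?_⟩
    · intro hh
      apply k1
      have hh' : 2 * P.η (n + 1) - P.ξ (n + 1) ≤
          P.c (n + 1) + P.τ * min (P.η (n + 1)) (P.ξ (n + 1)) := hh
      show 2 * P.η (n + 1) - P.ξ (n + 1) ≤
          P.c (n + 1) + P.τ * min (P.ξ (n + 1)) (P.η (n + 1))
      rwa [min_comm]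
    · show 215 / 100 * (P.η (n + 1) - P.c (n + 1) / 2) ≤
        4 * P.η (n + 1) - P.ξ (n + 1) - 5 / 2 * P.c (n + 1)
      linarith
    · show 212 / 100 * u ≤ 2 * P.ξ (n + 1) - P.c (n + 1)
      linarith
    · show 21 / 10 * u ≤ P.η (n + 1) - P.c (n + 1) / 2
      linarith
    · show P.c (n + 1) ≤ P.ξ (n + 1)
      linarith
    · show 1000 * (P.b + 1) ≤ u
      linarith
    · exact switch_bound hm hK hKW hv1 hu h3 hE (hW0 _) (hWt _) hRm
    · have huv : v ^ sg ≤ u ^ sg := Real.rpow_le_rpow (by linarith) (by linarith)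
        (by norm_num [sg])
      have : E ≤ Real.exp (K * u ^ sg) := Real.exp_le_exp.2 (mul_le_mul_of_nonneg_left huv hK)
      have h6 : 0 ≤ W (n + 1) * (Real.exp (K * u ^ sg) ^ 2 +
          (if 2 = 3 then Real.exp (K * u ^ sg) ^ 3 else 0)) := by
        refine mul_nonneg (hW0 _) ?_
        split_ifs <;> positivity
      linarith
  · -- the phase continues
    left
    have hky : P.ky n = 0 := by
      rcases hky0.lt_or_eq with hk | hk
      · exact absurd (P.of_ky n hk).1 hJ'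
      · exact hk.symm
    rw [hky] at hηs hcs
    have hI' : 7 / 2 * P.c (n + 1) ≤ 4 * P.ξ (n + 1) - P.η (n + 1) := by
      rcases hkx0.lt_or_eq with hk | hk
      · exact (P.of_kx n hk).2.2
      · rw [← hk] at hξs hcs
        linarith
    have hZ' : 215 / 100 * u ≤ 4 * P.ξ (n + 1) - P.η (n + 1) - 5 / 2 * P.c (n + 1) := by
      rcases hkx0.lt_or_eq with hk | hk
      · have h4 := (P.clipx n hk).1
        have h5 := hx2 hk
        nlinarith
      · rw [← hk] at hξs hcs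
        linarith
    have hY' : 212 / 100 * v ≤ 2 * P.η (n + 1) - P.c (n + 1) := by
      rcases hkx0.lt_or_eq with hk | hk
      · have h5 := hx2 hk
        linarith
      · rw [← hk] at hξs hcs
        linarith
    rcases hm with hm2 | hm3
    · by_cases hcη : P.c (n + 1) ≤ P.η (n + 1)
      · exact ⟨u, m, Or.inl hm2, hJ', hI', hZ', hY', hu, fun _ => hcη, h3, hv, hSE', hRm⟩
      · push Not at hcη
        have hcn2 := h2 hm2
        have hk : 0 < P.kx n := by
          by_contra hk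
          have : P.kx n = 0 := le_antisymm (not_lt.1 hk) hkx0
          rw [this] at hcs
          linarith
        have h4 := (P.clipx n hk).1
        have h5 : P.ξ (n + 1) = 2 * P.η (n + 1) - P.τ * P.η (n + 1) := by rw [h4]; ring
        have h6 : P.c (n + 1) ≤ P.η (n + 1) + P.b := by linarith
        have h7 : 31 / 10 * v ≤ P.ξ (n + 1) - P.c (n + 1) / 2 := by linarith
        refine ⟨P.ξ (n + 1) - P.c (n + 1) / 2, 3, Or.inr rfl, hJ', hI', ?_, hY', ?_,
          fun h => absurd h (by norm_num), fun _ => h7, hv, hSE', ?_⟩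
        · linarith
        · linarith
        · rw [if_pos rfl]
          exact hR3
    · exact ⟨u, m, Or.inr hm3, hJ', hI', hZ', hY', hu, fun h => by omega, h3, hv, hSE', hRm⟩

end Pool.Agent.Lib.MP_b771e3_an
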