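import Mathlib

set_option autoImplicit false

open Filter Topology Metric

namespace Pool.Agent.Lib.MP_b771e3_an

/-- One step of the Taylor expansion with uniform bounds (Schwarz lemma). -/
private theorem taylor_step (g : ℂ → ℂ) (B B' : ℝ) (hB : 0 < B) (hB' : B' = 6 * B)
    (hd : DifferentiableOn ℂ g (ball 0 (1 / 2)))
    (hb : ∀ z : ℂ, ‖z‖ < 1 / 2 → ‖g z‖ ≤ B) :
    DifferentiableOn ℂ (dslope g 0) (ball 0 (1 / 2)) ∧
      (∀ z : ℂ, ‖z‖ < 1 / 2 → ‖dslope g 0 z‖ ≤ B') := by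
  refine ⟨(Complex.differentiableOn_dslope (ball_mem_nhds _ (by norm_num))).mpr hd, ?_⟩
  intro z hz
  have hm : Set.MapsTo g (ball 0 (1 / 2)) (closedBall (g 0) (3 * B)) := by
    intro w hw
    rw [mem_closedBall, dist_eq_norm]
    have h1 := norm_sub_le (g w) (g 0)
    have h2 := hb w (by simpa using hw)
    have h3 := hb 0 (by norm_num)
    linarith
  have h := Complex.norm_dslope_le_div_of_mapsTo_ball hd hm (mem_ball_zero_iff.mpr hz)
  have e : 3 * B / (1 / 2) = B' := by rw [hB']; ring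
  rwa [e] at h

private theorem ds_eq (g : ℂ → ℂ) (z : ℂ) : g z = g 0 + z * dslope g 0 z := by
  have h := sub_smul_dslope g 0 z
  rw [sub_zero, smul_eq_mul] at h
  rw [h]; ring

/-- Uniform third order Taylor expansion of a bounded holomorphic function on a bidisc whose
linear part is `lam * x`.  (`‖z‖ = max ‖x‖ ‖y‖`.)
Proof: `φ(x,y) = φ(0,y) + (φ(x,y) - φ(0,y))`; one variable Taylor for `φ(0,·)`; for the second
term expand in `x` for fixed `y` (coefficients are circle integrals over `|s| = 1/4` of `φ(s,y)`),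
and then the coefficients of `x` and `x²` in `y`. -/
theorem taylor2 : ∃ A r : ℝ, 1 ≤ A ∧ 0 < r ∧ r ≤ 1 ∧ ∀ (φ : ℂ × ℂ → ℂ) (lam : ℂ),
    DifferentiableOn ℂ φ (ball 0 (1 / 2)) → (∀ z ∈ ball (0 : ℂ × ℂ) (1 / 2), ‖φ z‖ ≤ 1) →
    φ 0 = 0 → (∀ v : ℂ × ℂ, fderiv ℂ φ 0 v = lam * v.1) →
    ∃ a b s g : ℂ, ‖a‖ ≤ A ∧ ‖b‖ ≤ A ∧ ‖s‖ ≤ A ∧ ‖g‖ ≤ A ∧ ∀ z : ℂ × ℂ, ‖z‖ ≤ r →
      ‖φ z - (lam * z.1 + a * z.1 ^ 2 + b * z.1 * z.2 + s * z.2 ^ 2 + g * z.2 ^ 3)‖ ≤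
        A * (‖z.1‖ * ‖z‖ ^ 2 + ‖z‖ ^ 4) := by
  refine ⟨2000, 1 / 4, by norm_num, by norm_num, by norm_num, ?_⟩
  intro φ lam hφ hb hφ0 hlin
  have h0U : ‖(0 : ℂ)‖ < 1 / 2 := by norm_num
  have hmem : ∀ x y : ℂ, ‖x‖ < 1 / 2 → ‖y‖ < 1 / 2 →
      ((x, y) : ℂ × ℂ) ∈ ball (0 : ℂ × ℂ) (1 / 2) := by
    intro x y hx hy
    rw [mem_ball_zero_iff]
    rw [Prod.norm_def]
    exact max_lt hx hy
  have hdx : ∀ y : ℂ, ‖y‖ < 1 / 2 →
      DifferentiableOn ℂ (fun x => φ (x, y)) (ball 0 (1 / 2)) := by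
    intro y hy
    apply hφ.comp (t := ball (0 : ℂ × ℂ) (1 / 2))
      (f := fun x : ℂ => ((x, y) : ℂ × ℂ))
    · exact (differentiable_id.prodMk (differentiable_const y)).differentiableOn
    · intro x hx; exact hmem x y (by simpa using hx) hy
  have hdy : ∀ x : ℂ, ‖x‖ < 1 / 2 →
      DifferentiableOn ℂ (fun y => φ (x, y)) (ball 0 (1 / 2)) := by
    intro x hx
    apply hφ.comp (t := ball (0 : ℂ × ℂ) (1 / 2))
      (f := fun y : ℂ => ((x, y) : ℂ × ℂ))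
    · exact ((differentiable_const x).prodMk differentiable_id).differentiableOn
    · intro y hy; exact hmem x y hx (by simpa using hy)
  have hdiff0 : DifferentiableAt ℂ φ 0 :=
    (hφ 0 (mem_ball_self (by norm_num))).differentiableAt (ball_mem_nhds _ (by norm_num))
  -- expansion in x for fixed y
  set p1 : ℂ → ℂ → ℂ := fun y => dslope (fun x => φ (x, y)) 0 with hp1
  set p2 : ℂ → ℂ → ℂ := fun y => dslope (p1 y) 0 with hp2
  set p3 : ℂ → ℂ → ℂ := fun y => dslope (p2 y) 0 with hp3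
  have k1 : ∀ y : ℂ, ‖y‖ < 1 / 2 → DifferentiableOn ℂ (p1 y) (ball 0 (1 / 2)) ∧
      ∀ x : ℂ, ‖x‖ < 1 / 2 → ‖p1 y x‖ ≤ 6 := by
    intro y hy
    exact taylor_step (fun x => φ (x, y)) 1 6 one_pos (by norm_num) (hdx y hy)
      (fun x hx => hb _ (hmem x y hx hy))
  have k2 : ∀ y : ℂ, ‖y‖ < 1 / 2 → DifferentiableOn ℂ (p2 y) (ball 0 (1 / 2)) ∧
      ∀ x : ℂ, ‖x‖ < 1 / 2 → ‖p2 y x‖ ≤ 36 := by
    intro y hy
    exact taylor_step (p1 y) 6 36 (by norm_num) (by norm_num) (k1 y hy).1 (k1 y hy).2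
  have k3 : ∀ y : ℂ, ‖y‖ < 1 / 2 → ∀ x : ℂ, ‖x‖ < 1 / 2 → ‖p3 y x‖ ≤ 216 := by
    intro y hy
    exact (taylor_step (p2 y) 36 216 (by norm_num) (by norm_num) (k2 y hy).1 (k2 y hy).2).2
  have e1 : ∀ x y : ℂ, φ (x, y) = φ (0, y) + x * p1 y x := fun x y =>
    ds_eq (fun x => φ (x, y)) x
  have e2 : ∀ x y : ℂ, p1 y x = p1 y 0 + x * p2 y x := fun x y => ds_eq (p1 y) x
  have e3 : ∀ x y : ℂ, p2 y x = p2 y 0 + x * p3 y x := fun x y => ds_eq (p2 y) x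
  -- the coefficient of `x` is holomorphic in `y`
  set c : ℂ → ℂ := fun y => p1 y 0 with hc
  have hF : ∀ x : ℂ, ‖x‖ < 1 / 2 → x ≠ 0 →
      DifferentiableOn ℂ (fun y => p1 y x) (ball 0 (1 / 2)) := by
    intro x hx hx0
    have heq : (fun y => p1 y x) = fun y => (φ (x, y) - φ (0, y)) / x := by
      funext y
      rw [e1 x y]
      field_simp
      ring
    rw [heq]
    exact ((hdy x hx).sub (hdy 0 h0U)).div_const x
  have hcd : DifferentiableOn ℂ c (ball 0 (1 / 2)) := by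
    have hxn : ∀ n : ℕ, ‖((1 : ℂ) / ((n : ℂ) + 4))‖ < 1 / 2 := by
      intro n
      rw [norm_div, norm_one]
      have : ‖((n : ℂ) + 4)‖ = (n : ℝ) + 4 := by
        have : ((n : ℂ) + 4) = (((n : ℝ) + 4 : ℝ) : ℂ) := by push_cast; rfl
        rw [this, Complex.norm_real, Real.norm_eq_abs, abs_of_pos (by positivity)]
      rw [this]
      have hn : (0 : ℝ) ≤ n := Nat.cast_nonneg n
      rw [div_lt_div_iff₀ (by positivity) (by norm_num)]
      linarith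
    have hne : ∀ n : ℕ, ((1 : ℂ) / ((n : ℂ) + 4)) ≠ 0 := by
      intro n
      apply one_div_ne_zero
      have : ((n : ℂ) + 4) = ((n + 4 : ℕ) : ℂ) := by push_cast; rfl
      rw [this]
      exact Nat.cast_ne_zero.mpr (by omega)
    have hlim : TendstoUniformlyOn (fun (n : ℕ) (y : ℂ) => p1 y ((1 : ℂ) / ((n : ℂ) + 4))) c atTop
        (ball 0 (1 / 2)) := by
      rw [Metric.tendstoUniformlyOn_iff]
      intro ε hε
      have h1 : Tendsto (fun n : ℕ => 36 * ‖((1 : ℂ) / ((n : ℂ) + 4))‖) atTop (𝓝 0) := by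
        have h2 : Tendsto (fun n : ℕ => ((1 : ℂ) / ((n : ℂ) + 4))) atTop (𝓝 0) := by
          have h3 : Tendsto (fun n : ℕ => ((1 : ℂ) / ((n : ℂ)))) atTop (𝓝 0) :=
            tendsto_one_div_atTop_nhds_zero_nat
          have h4 := (tendsto_add_atTop_iff_nat 4).mpr h3
          refine h4.congr ?_
          intro n
          push_cast
          rfl
        have := (h2.norm).const_mul 36
        simpa using this
      filter_upwards [h1.eventually (Iio_mem_nhds hε)] with n hn y hy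
      rw [dist_comm, dist_eq_norm, hc]
      show ‖p1 y (1 / ((n : ℂ) + 4)) - p1 y 0‖ < ε
      rw [e2 (1 / ((n : ℂ) + 4)) y, add_sub_cancel_left, norm_mul]
      have h5 := (k2 y (by simpa using hy)).2 _ (hxn n)
      calc ‖(1 : ℂ) / ((n : ℂ) + 4)‖ * ‖p2 y (1 / ((n : ℂ) + 4))‖
          ≤ ‖(1 : ℂ) / ((n : ℂ) + 4)‖ * 36 := mul_le_mul_of_nonneg_left h5 (norm_nonneg _)
        _ = 36 * ‖(1 : ℂ) / ((n : ℂ) + 4)‖ := mul_comm _ _
        _ < ε := hn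
    exact hlim.tendstoLocallyUniformlyOn.differentiableOn
      (Eventually.of_forall fun n => hF _ (hxn n) (hne n)) isOpen_ball
  have hcb : ∀ y : ℂ, ‖y‖ < 1 / 2 → ‖c y‖ ≤ 6 := fun y hy => (k1 y hy).2 0 h0U
  have hc1 := taylor_step c 6 36 (by norm_num) (by norm_num) hcd hcb
  have hc2 := taylor_step (dslope c 0) 36 216 (by norm_num) (by norm_num) hc1.1 hc1.2
  -- `p2 y x` is close to `p2 0 x`
  have hp2y : ∀ x : ℂ, ‖x‖ < 1 / 2 → x ≠ 0 → ∀ y : ℂ, ‖y‖ < 1 / 2 →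
      ‖p2 y x - p2 0 x‖ ≤ 216 * ‖y‖ := by
    intro x hx hx0 y hy
    have hd : DifferentiableOn ℂ (fun y => p2 y x) (ball 0 (1 / 2)) := by
      have heq : (fun y => p2 y x) = fun y => (p1 y x - c y) / x := by
        funext y
        rw [e2 x y, hc]
        field_simp
        ring
      rw [heq]
      exact ((hF x hx hx0).sub hcd).div_const x
    have h1 := taylor_step (fun y => p2 y x) 36 216 (by norm_num) (by norm_num) hd
      (fun y hy => (k2 y hy).2 x hx)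
    have h2 : p2 y x = p2 0 x + y * dslope (fun y => p2 y x) 0 y := ds_eq (fun y => p2 y x) y
    rw [h2, add_sub_cancel_left, norm_mul, mul_comm]
    exact mul_le_mul_of_nonneg_right (h1.2 y hy) (norm_nonneg _)
  -- the slice `x = 0`
  set q : ℂ → ℂ := fun y => φ (0, y) with hq
  have hq1 := taylor_step q 1 6 one_pos (by norm_num) (hdy 0 h0U)
    (fun y hy => hb _ (hmem 0 y h0U hy))
  have hq2 := taylor_step _ 6 36 (by norm_num) (by norm_num) hq1.1 hq1.2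
  have hq3 := taylor_step _ 36 216 (by norm_num) (by norm_num) hq2.1 hq2.2
  have hq4 := taylor_step _ 216 1296 (by norm_num) (by norm_num) hq3.1 hq3.2
  -- first derivatives
  have hc0 : c 0 = lam := by
    have h1 : HasDerivAt (fun x : ℂ => φ (x, 0)) (fderiv ℂ φ 0 (1, 0)) 0 := by
      have h2 : HasDerivAt (fun x : ℂ => ((x, (0 : ℂ)) : ℂ × ℂ)) (1, 0) 0 :=
        (hasDerivAt_id (0 : ℂ)).prodMk (hasDerivAt_const (0 : ℂ) (0 : ℂ))
      have h3 : HasFDerivAt φ (fderiv ℂ φ 0) ((0 : ℂ), (0 : ℂ)) := hdiff0.hasFDerivAt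
      exact h3.comp_hasDerivAt (f := fun x : ℂ => ((x, (0 : ℂ)) : ℂ × ℂ)) (0 : ℂ) h2
    show dslope (fun x => φ (x, 0)) 0 0 = lam
    rw [dslope_same, h1.deriv, hlin]
    simp
  have hq10 : dslope q 0 0 = 0 := by
    have h1 : HasDerivAt (fun y : ℂ => φ (0, y)) (fderiv ℂ φ 0 (0, 1)) 0 := by
      have h2 : HasDerivAt (fun y : ℂ => (((0 : ℂ), y) : ℂ × ℂ)) (0, 1) 0 :=
        (hasDerivAt_const (0 : ℂ) (0 : ℂ)).prodMk (hasDerivAt_id (0 : ℂ))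
      have h3 : HasFDerivAt φ (fderiv ℂ φ 0) ((0 : ℂ), (0 : ℂ)) := hdiff0.hasFDerivAt
      exact h3.comp_hasDerivAt (f := fun y : ℂ => (((0 : ℂ), y) : ℂ × ℂ)) (0 : ℂ) h2
    rw [dslope_same, hq, h1.deriv, hlin]
    simp
  have hq0 : q 0 = 0 := hφ0
  refine ⟨p2 0 0, dslope (dslope c 0) 0 0 * 0 + dslope c 0 0, dslope (dslope q 0) 0 0,
    dslope (dslope (dslope q 0) 0) 0 0, ?_, ?_, ?_, ?_, ?_⟩
  · exact ((k2 0 h0U).2 0 h0U).trans (by norm_num)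
  · rw [mul_zero, zero_add]
    exact (hc1.2 0 (by simp)).trans (by norm_num)
  · exact (hq2.2 0 (by simp)).trans (by norm_num)
  · exact (hq3.2 0 (by simp)).trans (by norm_num)
  rintro ⟨x, y⟩ hz
  rw [mul_zero, zero_add]
  have hxz : ‖x‖ ≤ ‖((x, y) : ℂ × ℂ)‖ := by rw [Prod.norm_def]; exact le_max_left _ _
  have hyz : ‖y‖ ≤ ‖((x, y) : ℂ × ℂ)‖ := by rw [Prod.norm_def]; exact le_max_right _ _
  set Z : ℝ := ‖((x, y) : ℂ × ℂ)‖ with hZ
  have hx : ‖x‖ < 1 / 2 := by linarith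
  have hy : ‖y‖ < 1 / 2 := by linarith
  have f1 := ds_eq q y
  have f2 := ds_eq (dslope q 0) y
  have f3 := ds_eq (dslope (dslope q 0) 0) y
  have f4 := ds_eq (dslope (dslope (dslope q 0) 0) 0) y
  have g1 := ds_eq c y
  have g2 := ds_eq (dslope c 0) y
  have m1 := e1 x y
  have m2 := e2 x y
  have key : φ (x, y) - (lam * x + p2 0 0 * x ^ 2 + dslope c 0 0 * x * y +
      dslope (dslope q 0) 0 0 * y ^ 2 + dslope (dslope (dslope q 0) 0) 0 0 * y ^ 3) =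
      x ^ 2 * (p2 y x - p2 0 0) + x * y ^ 2 * dslope (dslope c 0) 0 y +
        y ^ 4 * dslope (dslope (dslope (dslope q 0) 0) 0) 0 y := by
    have m3 : p1 y 0 = c y := rfl
    have m4 : φ (0, y) = q y := rfl
    rw [m1, m2, m3, m4, g1, g2, hc0, f1, f2, f3, f4, hq0, hq10]
    ring
  show ‖φ (x, y) - (lam * x + p2 0 0 * x ^ 2 + dslope c 0 0 * x * y +
      dslope (dslope q 0) 0 0 * y ^ 2 + dslope (dslope (dslope q 0) 0) 0 0 * y ^ 3)‖ ≤
      2000 * (‖x‖ * Z ^ 2 + Z ^ 4)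
  rw [key]
  have hZ0 : 0 ≤ Z := norm_nonneg _
  have b1 : ‖x ^ 2 * (p2 y x - p2 0 0)‖ ≤ 432 * (‖x‖ * Z ^ 2) := by
    by_cases hx0 : x = 0
    · subst hx0; simp
    · have h1 := hp2y x hx hx0 y hy
      have h2 : ‖p2 0 x - p2 0 0‖ ≤ 216 * ‖x‖ := by
        rw [e3 x 0, add_sub_cancel_left, norm_mul, mul_comm]
        exact mul_le_mul_of_nonneg_right (k3 0 h0U x hx) (norm_nonneg _)
      have h3 : ‖p2 y x - p2 0 0‖ ≤ 216 * ‖y‖ + 216 * ‖x‖ := by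
        calc ‖p2 y x - p2 0 0‖ = ‖(p2 y x - p2 0 x) + (p2 0 x - p2 0 0)‖ := by
              congr 1; ring
          _ ≤ _ := (norm_add_le _ _).trans (add_le_add h1 h2)
      have h4 : ‖p2 y x - p2 0 0‖ ≤ 432 * Z := by linarith
      rw [norm_mul, norm_pow]
      calc ‖x‖ ^ 2 * ‖p2 y x - p2 0 0‖ ≤ ‖x‖ ^ 2 * (432 * Z) :=
            mul_le_mul_of_nonneg_left h4 (by positivity)
        _ = 432 * (‖x‖ * (‖x‖ * Z)) := by ring
        _ ≤ 432 * (‖x‖ * (Z * Z)) := by gcongr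
        _ = 432 * (‖x‖ * Z ^ 2) := by ring
  have b2 : ‖x * y ^ 2 * dslope (dslope c 0) 0 y‖ ≤ 216 * (‖x‖ * Z ^ 2) := by
    rw [norm_mul, norm_mul, norm_pow]
    have h1 : ‖dslope (dslope c 0) 0 y‖ ≤ 216 := hc2.2 y hy
    calc ‖x‖ * ‖y‖ ^ 2 * ‖dslope (dslope c 0) 0 y‖ ≤ ‖x‖ * Z ^ 2 * 216 := by gcongr
      _ = _ := by ring
  have b3 : ‖y ^ 4 * dslope (dslope (dslope (dslope q 0) 0) 0) 0 y‖ ≤ 1296 * Z ^ 4 := by
    rw [norm_mul, norm_pow]
    have h1 : ‖dslope (dslope (dslope (dslope q 0) 0) 0) 0 y‖ ≤ 1296 := hq4.2 y hy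
    calc ‖y‖ ^ 4 * ‖dslope (dslope (dslope (dslope q 0) 0) 0) 0 y‖ ≤ Z ^ 4 * 1296 := by gcongr
      _ = _ := by ring
  have h5 : 0 ≤ ‖x‖ * Z ^ 2 := by positivity
  have h6 : 0 ≤ Z ^ 4 := by positivity
  calc _ ≤ ‖x ^ 2 * (p2 y x - p2 0 0)‖ + ‖x * y ^ 2 * dslope (dslope c 0) 0 y‖ +
        ‖y ^ 4 * dslope (dslope (dslope (dslope q 0) 0) 0) 0 y‖ := norm_add₃_le
    _ ≤ 432 * (‖x‖ * Z ^ 2) + 216 * (‖x‖ * Z ^ 2) + 1296 * Z ^ 4 := by linarith
    _ ≤ 2000 * (‖x‖ * Z ^ 2 + Z ^ 4) := by linarith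

end Pool.Agent.Lib.MP_b771e3_an
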