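import Mathlib
import Pool.Agent.Lib.MP_b771e3_an.Mg.G004
import Pool.Agent.Lib.MP_b771e3_an.Mg.G001
import Pool.Agent.Lib.MP_b771e3_an.Mg.G005
import Pool.Agent.Lib.MP_b771e3_an.Taylor

set_option autoImplicit false

open Filter Topology

namespace Pool.Agent.Lib.MP_b771e3_an

/-- The space. -/
abbrev E2 : Type := EuclideanSpace ℂ (Fin 2)

/-- Coordinates. -/
noncomputable def ee : E2 ≃L[ℂ] ℂ × ℂ :=
  (EuclideanSpace.equiv (Fin 2) ℂ).trans (ContinuousLinearEquiv.finTwoArrow ℂ ℂ)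

theorem ee_fst (z : E2) : (ee z).1 = z 0 := rfl

theorem ee_snd (z : E2) : (ee z).2 = z 1 := rfl

theorem norm_sq_ee (z : E2) : ‖z‖ ^ 2 = ‖(ee z).1‖ ^ 2 + ‖(ee z).2‖ ^ 2 := by
  rw [EuclideanSpace.norm_sq_eq, Fin.sum_univ_two, ee_fst, ee_snd]

theorem norm_ee_le (z : E2) : ‖ee z‖ ≤ ‖z‖ := by
  rw [Prod.norm_def]
  have h := norm_sq_ee z
  refine max_le ?_ ?_
  · refine le_of_sq_le_sq ?_ (norm_nonneg _)
    nlinarith [sq_nonneg ‖(ee z).2‖]
  · refine le_of_sq_le_sq ?_ (norm_nonneg _)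
    nlinarith [sq_nonneg ‖(ee z).1‖]

theorem norm_sq_le_ee (z : E2) : ‖z‖ ^ 2 ≤ 2 * ‖ee z‖ ^ 2 := by
  have h := norm_sq_ee z
  have h1 : ‖(ee z).1‖ ≤ ‖ee z‖ := norm_fst_le _
  have h2 : ‖(ee z).2‖ ≤ ‖ee z‖ := norm_snd_le _
  have h3 : ‖(ee z).1‖ ^ 2 ≤ ‖ee z‖ ^ 2 := pow_le_pow_left₀ (norm_nonneg _) h1 2
  have h4 : ‖(ee z).2‖ ^ 2 ≤ ‖ee z‖ ^ 2 := pow_le_pow_left₀ (norm_nonneg _) h2 2
  linarith

theorem norm_lt_one_of_ee (z : E2) (h : ‖ee z‖ ≤ 1 / 2) : ‖z‖ < 1 := by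
  have h1 := norm_sq_le_ee z
  have h2 : ‖ee z‖ ^ 2 ≤ (1 / 2) ^ 2 := pow_le_pow_left₀ (norm_nonneg _) h 2
  nlinarith [norm_nonneg z]

/-- The derivative at the fixed point inherits the bounds. -/
theorem deriv_bounds (f : E2 → E2) (C D : ℝ) (hf : Differentiable ℂ f)
    (h : ∀ z : E2, ‖z‖ < 1 → C * ‖z‖ ≤ ‖f z‖ ∧ ‖f z‖ ≤ D * ‖z‖) (v : E2) :
    C * ‖v‖ ≤ ‖fderiv ℂ f 0 v‖ ∧ ‖fderiv ℂ f 0 v‖ ≤ D * ‖v‖ := by
  have hf0 : f 0 = 0 := by
    have := (h 0 (by simp)).2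
    simpa using this
  have h1 : Tendsto (fun n : ℕ => ‖((n : ℂ))‖) atTop atTop := by
    simpa using tendsto_natCast_atTop_atTop (R := ℝ)
  have h2 := ((hf 0).hasFDerivAt.lim v h1).norm
  have h3 : ∀ᶠ n : ℕ in atTop, C * ‖v‖ ≤ ‖(n : ℂ) • (f (0 + (n : ℂ)⁻¹ • v) - f 0)‖ ∧
      ‖(n : ℂ) • (f (0 + (n : ℂ)⁻¹ • v) - f 0)‖ ≤ D * ‖v‖ := by
    obtain ⟨N, hN⟩ := exists_nat_gt ‖v‖
    filter_upwards [eventually_ge_atTop (max N 1)] with n hn
    have hn1 : (1 : ℝ) ≤ n := by exact_mod_cast (le_trans (le_max_right _ _) hn)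
    have hnN : ‖v‖ < n := lt_of_lt_of_le hN (by exact_mod_cast (le_trans (le_max_left _ _) hn))
    have hn0 : (0 : ℝ) < n := by linarith
    have h4 : ‖(n : ℂ)⁻¹ • v‖ = ‖v‖ / n := by
      rw [norm_smul, norm_inv, Complex.norm_natCast]; field_simp
    have h5 : ‖(n : ℂ)⁻¹ • v‖ < 1 := by
      rw [h4, div_lt_one hn0]; exact hnN
    obtain ⟨h6, h7⟩ := h _ h5
    rw [zero_add, hf0, sub_zero, norm_smul, Complex.norm_natCast]
    rw [h4] at h6 h7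
    constructor
    · calc C * ‖v‖ = n * (C * (‖v‖ / n)) := by field_simp
        _ ≤ _ := mul_le_mul_of_nonneg_left h6 hn0.le
    · calc _ ≤ (n : ℝ) * (D * (‖v‖ / n)) := mul_le_mul_of_nonneg_left h7 hn0.le
        _ = D * ‖v‖ := by field_simp
  exact ⟨ge_of_tendsto h2 (h3.mono fun n hn => hn.1), le_of_tendsto h2 (h3.mono fun n hn => hn.2)⟩

/-- The transferred maps. -/
noncomputable def FF (f : ℕ → E2 → E2) (n : ℕ) (z : ℂ × ℂ) : ℂ × ℂ := ee (f n (ee.symm z))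

theorem FF_diff (f : ℕ → E2 → E2) (hf : ∀ n, Differentiable ℂ (f n)) (n : ℕ) :
    Differentiable ℂ (FF f n) :=
  ee.differentiable.comp ((hf n).comp ee.symm.differentiable)

theorem norm_symm_lt (z : ℂ × ℂ) (hz : ‖z‖ ≤ 1 / 2) : ‖ee.symm z‖ < 1 := by
  apply norm_lt_one_of_ee
  rwa [ContinuousLinearEquiv.apply_symm_apply]

theorem FF_bound (f : ℕ → E2 → E2) (C D : ℝ) (hD1 : D < 1)
    (h : ∀ n (z : E2), ‖z‖ < 1 → C * ‖z‖ ≤ ‖f n z‖ ∧ ‖f n z‖ ≤ D * ‖z‖) (n : ℕ) (z : ℂ × ℂ)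
    (hz : ‖z‖ ≤ 1 / 2) : ‖FF f n z‖ ≤ 1 := by
  have h1 := norm_symm_lt z hz
  have h2 := (h n _ h1).2
  have h3 := norm_ee_le (f n (ee.symm z))
  have h4 : D * ‖ee.symm z‖ ≤ 1 := by nlinarith [norm_nonneg (ee.symm z)]
  exact h3.trans (h2.trans h4)

theorem FF_zero (f : ℕ → E2 → E2) (C D : ℝ)
    (h : ∀ n (z : E2), ‖z‖ < 1 → C * ‖z‖ ≤ ‖f n z‖ ∧ ‖f n z‖ ≤ D * ‖z‖) (n : ℕ) :
    FF f n 0 = 0 := by
  have hf0 : f n 0 = 0 := by
    have := (h n 0 (by simp)).2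
    simpa using this
  unfold FF
  rw [map_zero, hf0, map_zero]

theorem FF_fderiv (f : ℕ → E2 → E2) (hf : ∀ n, Differentiable ℂ (f n)) (n : ℕ)
    (v : ℂ × ℂ) : fderiv ℂ (FF f n) 0 v = ee (fderiv ℂ (f n) 0 (ee.symm v)) := by
  have h0 : HasFDerivAt (f n) (fderiv ℂ (f n) 0) (ee.symm 0) := by
    rw [map_zero]; exact ((hf n) 0).hasFDerivAt
  have h1 : HasFDerivAt (FF f n) (((ee : E2 →L[ℂ] ℂ × ℂ).comp
      ((fderiv ℂ (f n) 0).comp (ee.symm : ℂ × ℂ →L[ℂ] E2)))) 0 :=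
    (ee.hasFDerivAt).comp 0 (h0.comp 0 ee.symm.hasFDerivAt)
  rw [h1.fderiv]
  rfl

theorem it_FF (f : ℕ → E2 → E2) (z : ℂ × ℂ) (x : ℕ → E2) (h0 : x 0 = ee.symm z)
    (hx : ∀ k, x (k + 1) = f k (x k)) (n : ℕ) : it (FF f) n z = ee (x n) := by
  induction n with
  | zero => rw [h0, ContinuousLinearEquiv.apply_symm_apply]; rfl
  | succ n ih =>
    show FF f n (it (FF f) n z) = _
    rw [ih, hx n]
    unfold FF
    rw [ContinuousLinearEquiv.symm_apply_apply]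

theorem exists_orbit (f : ℕ → E2 → E2) (z : E2) :
    ∃ x : ℕ → E2, x 0 = z ∧ ∀ k, x (k + 1) = f k (x k) :=
  ⟨fun n => Nat.rec z (fun k y => f k y) n, rfl, fun _ => rfl⟩

theorem basin_iff (f : ℕ → E2 → E2) (z : E2) :
    (∃ x : ℕ → E2, x 0 = z ∧ (∀ k, x (k + 1) = f k (x k)) ∧ Tendsto x atTop (nhds 0)) ↔
      Tendsto (fun n => it (FF f) n (ee z)) atTop (𝓝 0) := by
  constructor
  · rintro ⟨x, h0, hx, hlim⟩
    have h1 : ∀ n, it (FF f) n (ee z) = ee (x n) :=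
      it_FF f (ee z) x (by rw [h0, ContinuousLinearEquiv.symm_apply_apply]) hx
    have h2 : Tendsto (fun n => ee (x n)) atTop (𝓝 (ee 0)) := (ee.continuous.tendsto 0).comp hlim
    rw [map_zero] at h2
    exact h2.congr (fun n => (h1 n).symm)
  · intro h
    obtain ⟨x, h0, hx⟩ := exists_orbit f z
    have h1 : ∀ n, it (FF f) n (ee z) = ee (x n) :=
      it_FF f (ee z) x (by rw [h0, ContinuousLinearEquiv.symm_apply_apply]) hx
    refine ⟨x, h0, hx, ?_⟩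
    have h2 : Tendsto (fun n => ee.symm (it (FF f) n (ee z))) atTop (𝓝 (ee.symm 0)) :=
      (ee.symm.continuous.tendsto 0).comp h
    rw [map_zero] at h2
    refine h2.congr (fun n => ?_)
    rw [h1, ContinuousLinearEquiv.symm_apply_apply]

/-- Contraction of the orbits. -/
theorem FF_contr (f : ℕ → E2 → E2) (C D : ℝ) (hD0 : 0 < D) (hD1 : D < 1)
    (h : ∀ n (z : E2), ‖z‖ < 1 → C * ‖z‖ ≤ ‖f n z‖ ∧ ‖f n z‖ ≤ D * ‖z‖)
    (n₁ : ℕ) (z : ℂ × ℂ) (hz : ‖it (FF f) n₁ z‖ ≤ 1 / 2) (n : ℕ) (hn : n₁ ≤ n) :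
    ‖it (FF f) n z‖ ≤ Real.exp (-(-Real.log D * (n - n₁ : ℝ))) := by
  obtain ⟨x, h0, hx⟩ := exists_orbit f (ee.symm z)
  have h1 : ∀ n, it (FF f) n z = ee (x n) := it_FF f z x h0 hx
  have h2 : ‖x n₁‖ < 1 := by
    apply norm_lt_one_of_ee
    rw [← h1]; exact hz
  have h3 : ∀ k : ℕ, ‖x (n₁ + k)‖ ≤ D ^ k := by
    intro k
    induction k with
    | zero => simpa using h2.le
    | succ k ih =>
      have h4 : ‖x (n₁ + k)‖ < 1 := by
        rcases Nat.eq_zero_or_pos k with hk | hk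
        · rw [hk]; simpa using h2
        · exact lt_of_le_of_lt ih (pow_lt_one₀ hD0.le hD1 hk.ne')
      have h5 := (h (n₁ + k) _ h4).2
      rw [← hx] at h5
      calc ‖x (n₁ + (k + 1))‖ ≤ D * ‖x (n₁ + k)‖ := h5
        _ ≤ D * D ^ k := mul_le_mul_of_nonneg_left ih hD0.le
        _ = D ^ (k + 1) := by ring
  obtain ⟨k, rfl⟩ := Nat.exists_eq_add_of_le hn
  rw [h1]
  refine (norm_ee_le _).trans ((h3 k).trans (le_of_eq ?_))
  rw [show (-(-Real.log D * (((n₁ + k : ℕ) : ℝ) - n₁))) = k * Real.log D by push_cast; ring,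
    Real.exp_nat_mul, Real.exp_log hD0]

/-- The final theorem.  Proof: transfer to `ℂ × ℂ`; the diagonal
entries satisfy `C ≤ ‖d i‖ ≤ D`; take `a = -log D`, `b = -log C`,
`τ = min (1/1000) ((4a-b)/(100a))`; build `Dyn` from `taylor2` (second component: exchange the
variables) and `lipmap`; apply `exists_Conj` and `main_prod` with `r₁ = 1/2`. -/
theorem final :
    ∀ (f : ℕ → EuclideanSpace ℂ (Fin 2) → EuclideanSpace ℂ (Fin 2)) (C D : ℝ),
      0 < C → C < D → D < 1 → D ^ 4 < C →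
      (∀ n, Differentiable ℂ (f n)) →
      (∀ n, ∃ g : EuclideanSpace ℂ (Fin 2) → EuclideanSpace ℂ (Fin 2),
          Differentiable ℂ g ∧ Function.LeftInverse g (f n) ∧ Function.RightInverse g (f n)) →
      (∀ n (z : EuclideanSpace ℂ (Fin 2)), ‖z‖ < 1 →
          C * ‖z‖ ≤ ‖f n z‖ ∧ ‖f n z‖ ≤ D * ‖z‖) →
      (∀ n, ∃ d : Fin 2 → ℂ, ∀ (v : EuclideanSpace ℂ (Fin 2)) (i : Fin 2),
          EuclideanSpace.proj i (fderiv ℂ (f n) 0 v) = d i * EuclideanSpace.proj i v) →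
      ∃ φ ψ : EuclideanSpace ℂ (Fin 2) → EuclideanSpace ℂ (Fin 2),
        DifferentiableOn ℂ φ
          {z | ∃ x : ℕ → EuclideanSpace ℂ (Fin 2), x 0 = z ∧ (∀ k, x (k + 1) = f k (x k)) ∧
            Filter.Tendsto x Filter.atTop (nhds 0)} ∧
        Differentiable ℂ ψ ∧
        (∀ w, ψ w ∈ {z | ∃ x : ℕ → EuclideanSpace ℂ (Fin 2), x 0 = z ∧
            (∀ k, x (k + 1) = f k (x k)) ∧ Filter.Tendsto x Filter.atTop (nhds 0)}) ∧
        (∀ z ∈ {z | ∃ x : ℕ → EuclideanSpace ℂ (Fin 2), x 0 = z ∧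
            (∀ k, x (k + 1) = f k (x k)) ∧ Filter.Tendsto x Filter.atTop (nhds 0)},
            ψ (φ z) = z) ∧
        ∀ w, φ (ψ w) = w := by
  intro f C D hC hCD hD1 hD4 hf hinv hb hdiag
  have hD0 : 0 < D := hC.trans hCD
  choose g hg1 hg2 hg3 using hinv
  choose d hd using hdiag
  -- bounds on the diagonal entries
  have hdb : ∀ n i, C ≤ ‖d n i‖ ∧ ‖d n i‖ ≤ D := by
    intro n i
    have h1 := deriv_bounds (f n) C D (hf n) (hb n) (EuclideanSpace.single i (1 : ℂ))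
    have h2 : fderiv ℂ (f n) 0 (EuclideanSpace.single i (1 : ℂ)) =
        EuclideanSpace.single i (d n i) := by
      ext j
      have h3 : (fderiv ℂ (f n) 0 (EuclideanSpace.single i (1 : ℂ))) j =
          d n j * (EuclideanSpace.single i (1 : ℂ) : E2) j :=
        hd n (EuclideanSpace.single i (1 : ℂ)) j
      rw [h3]
      by_cases hij : j = i
      · subst hij; simp
      · simp [hij]
    rw [h2, EuclideanSpace.norm_single, EuclideanSpace.norm_single, norm_one, mul_one,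
      mul_one] at h1
    exact h1
  set a : ℝ := -Real.log D with ha
  set b : ℝ := -Real.log C with hbdef
  have ha0 : 0 < a := by rw [ha]; linarith [Real.log_neg hD0 hD1]
  have hb4 : b < 4 * a := by
    rw [ha, hbdef]
    have := Real.log_lt_log (pow_pos hD0 4) hD4
    rw [Real.log_pow] at this
    push_cast at this
    linarith
  set τ : ℝ := min (1 / 1000) ((4 * a - b) / (100 * a)) with hτ
  have hτ0 : 0 < τ := by
    rw [hτ]
    refine lt_min (by norm_num) (div_pos (by linarith) (by linarith))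
  have hτ1 : τ ≤ 1 / 1000 := min_le_left _ _
  have hab : b ≤ (4 - 100 * τ) * a := by
    have h1 : τ ≤ (4 * a - b) / (100 * a) := min_le_right _ _
    rw [le_div_iff₀ (by linarith)] at h1
    nlinarith
  have hdX : ∀ n i, a ≤ -Real.log ‖d n i‖ ∧ -Real.log ‖d n i‖ ≤ b := by
    intro n i
    obtain ⟨h1, h2⟩ := hdb n i
    have h3 : 0 < ‖d n i‖ := lt_of_lt_of_le hC h1
    constructor
    · rw [ha]; linarith [Real.log_le_log h3 h2]
    · rw [hbdef]; linarith [Real.log_le_log hC h1]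
  obtain ⟨P, hPa, hPb, hPτ, hPX, hPY⟩ := exists_PD a b τ (fun n => -Real.log ‖d n 0‖)
    (fun n => -Real.log ‖d n 1‖) ha0 hτ0 hτ1 hab (fun n => hdX n 0) (fun n => hdX n 1)
  obtain ⟨A1, r1, hA1, hr1, hr1', hT⟩ := taylor2
  obtain ⟨A2, r2, hA2, hr2, hr2', hL⟩ := lipmap
  -- the linear part
  have hlin : ∀ n (v : ℂ × ℂ), fderiv ℂ (FF f n) 0 v = (d n 0 * v.1, d n 1 * v.2) := by
    intro n v
    rw [FF_fderiv f hf n v]
    have h1 : (fderiv ℂ (f n) 0 (ee.symm v)) 0 = d n 0 * (ee.symm v) 0 := hd n (ee.symm v) 0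
    have h2 : (fderiv ℂ (f n) 0 (ee.symm v)) 1 = d n 1 * (ee.symm v) 1 := hd n (ee.symm v) 1
    refine Prod.ext ?_ ?_
    · rw [ee_fst, h1, ← ee_fst, ContinuousLinearEquiv.apply_symm_apply]
    · rw [ee_snd, h2, ← ee_snd, ContinuousLinearEquiv.apply_symm_apply]
  have hball : ∀ z ∈ Metric.ball (0 : ℂ × ℂ) (1 / 2), ‖z‖ ≤ 1 / 2 := fun z hz => by
    rw [mem_ball_zero_iff] at hz; exact hz.le
  have hFb : ∀ n, ∀ z ∈ Metric.ball (0 : ℂ × ℂ) (1 / 2), ‖FF f n z‖ ≤ 1 := fun n z hz =>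
    FF_bound f C D hD1 hb n z (hball z hz)
  have hF0 : ∀ n, FF f n 0 = 0 := FF_zero f C D hb
  have hFd := FF_diff f hf
  -- Taylor expansions
  have hE1 : ∀ n, ∃ p q s t : ℂ, ‖p‖ ≤ A1 ∧ ‖q‖ ≤ A1 ∧ ‖s‖ ≤ A1 ∧ ‖t‖ ≤ A1 ∧ ∀ z : ℂ × ℂ,
      ‖z‖ ≤ r1 → ‖(FF f n z).1 - (d n 0 * z.1 + p * z.1 ^ 2 + q * z.1 * z.2 + s * z.2 ^ 2 +
        t * z.2 ^ 3)‖ ≤ A1 * (‖z.1‖ * ‖z‖ ^ 2 + ‖z‖ ^ 4) := by
    intro n
    refine hT (fun z => (FF f n z).1) (d n 0) ?_ ?_ ?_ ?_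
    · exact (differentiable_fst.comp (hFd n)).differentiableOn
    · intro z hz
      exact (norm_fst_le _).trans (hFb n z hz)
    · show (FF f n 0).1 = 0
      rw [hF0]; rfl
    · intro v
      have h1 : HasFDerivAt (fun z => (FF f n z).1)
          ((ContinuousLinearMap.fst ℂ ℂ ℂ).comp (fderiv ℂ (FF f n) 0)) 0 :=
        hasFDerivAt_fst.comp 0 ((hFd n) 0).hasFDerivAt
      rw [h1.fderiv]
      show (fderiv ℂ (FF f n) 0 v).1 = _
      rw [hlin]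
  have hE2 : ∀ n, ∃ p q s t : ℂ, ‖p‖ ≤ A1 ∧ ‖q‖ ≤ A1 ∧ ‖s‖ ≤ A1 ∧ ‖t‖ ≤ A1 ∧ ∀ z : ℂ × ℂ,
      ‖z‖ ≤ r1 → ‖(FF f n z).2 - (d n 1 * z.2 + p * z.2 ^ 2 + q * z.1 * z.2 + s * z.1 ^ 2 +
        t * z.1 ^ 3)‖ ≤ A1 * (‖z.2‖ * ‖z‖ ^ 2 + ‖z‖ ^ 4) := by
    intro n
    have hsw : ∀ z : ℂ × ℂ, ‖z.swap‖ = ‖z‖ := fun z => by
      rw [Prod.norm_def, Prod.norm_def, max_comm]; rfl
    have hswd : Differentiable ℂ (Prod.swap : ℂ × ℂ → ℂ × ℂ) :=
      (ContinuousLinearEquiv.prodComm ℂ ℂ ℂ).differentiable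
    obtain ⟨p, q, s, t, h1, h2, h3, h4, h5⟩ := hT (fun z => (FF f n z.swap).2) (d n 1) (by
      exact (differentiable_snd.comp ((hFd n).comp hswd)).differentiableOn) (by
      intro z hz
      refine (norm_snd_le _).trans (hFb n z.swap ?_)
      rw [mem_ball_zero_iff, hsw]
      rwa [mem_ball_zero_iff] at hz) (by
      show (FF f n (Prod.swap 0)).2 = 0
      rw [show (Prod.swap (0 : ℂ × ℂ)) = 0 from rfl, hF0]; rfl) (by
      intro v
      have h0 : HasFDerivAt (Prod.swap : ℂ × ℂ → ℂ × ℂ)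
          ((ContinuousLinearEquiv.prodComm ℂ ℂ ℂ : (ℂ × ℂ) ≃L[ℂ] (ℂ × ℂ)) :
            ℂ × ℂ →L[ℂ] ℂ × ℂ) 0 := (ContinuousLinearEquiv.prodComm ℂ ℂ ℂ).hasFDerivAt
      have h1 : HasFDerivAt (FF f n) (fderiv ℂ (FF f n) 0) (Prod.swap (0 : ℂ × ℂ)) := by
        rw [show (Prod.swap (0 : ℂ × ℂ)) = 0 from rfl]; exact ((hFd n) 0).hasFDerivAt
      have hc : HasFDerivAt (fun z : ℂ × ℂ => FF f n z.swap) ((fderiv ℂ (FF f n) 0).comp
          ((ContinuousLinearEquiv.prodComm ℂ ℂ ℂ : (ℂ × ℂ) ≃L[ℂ] (ℂ × ℂ)) :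
            ℂ × ℂ →L[ℂ] ℂ × ℂ)) 0 := h1.comp (0 : ℂ × ℂ) h0
      have h2 : HasFDerivAt (fun z : ℂ × ℂ => (FF f n z.swap).2)
          ((ContinuousLinearMap.snd ℂ ℂ ℂ).comp ((fderiv ℂ (FF f n) 0).comp
          ((ContinuousLinearEquiv.prodComm ℂ ℂ ℂ : (ℂ × ℂ) ≃L[ℂ] (ℂ × ℂ)) :
            ℂ × ℂ →L[ℂ] ℂ × ℂ))) 0 := hc.snd
      have h3 : fderiv ℂ (fun z : ℂ × ℂ => (FF f n z.swap).2) 0 v =
          (fderiv ℂ (FF f n) 0 v.swap).2 := by
        rw [h2.fderiv]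
        rfl
      rw [h3, hlin]
      rfl)
    refine ⟨p, q, s, t, h1, h2, h3, h4, fun z hz => ?_⟩
    have h6 := h5 z.swap (by rwa [hsw])
    rw [hsw] at h6
    simp only [Prod.swap_swap, Prod.fst_swap, Prod.snd_swap] at h6
    rw [show d n 1 * z.2 + p * z.2 ^ 2 + q * z.1 * z.2 + s * z.1 ^ 2 + t * z.1 ^ 3 =
      d n 1 * z.2 + p * z.2 ^ 2 + q * z.2 * z.1 + s * z.1 ^ 2 + t * z.1 ^ 3 by ring]
    exact h6
  choose p1 q1 s1 t1 hp1 hq1 hs1 ht1 hexp1 using hE1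
  choose p2 q2 s2 t2 hp2 hq2 hs2 ht2 hexp2 using hE2
  have hA12 : A1 ≤ max A1 A2 := le_max_left _ _
  have hrA : min r1 r2 ≤ r1 := min_le_left _ _
  have hrB : min r1 r2 ≤ r2 := min_le_right _ _
  have hpos4 : ∀ z : ℂ × ℂ, 0 ≤ ‖z.1‖ * ‖z‖ ^ 2 + ‖z‖ ^ 4 := fun z => by positivity
  have hpos5 : ∀ z : ℂ × ℂ, 0 ≤ ‖z.2‖ * ‖z‖ ^ 2 + ‖z‖ ^ 4 := fun z => by positivity
  let Dn : Dyn P :=
    { A := max A1 A2
      r := min r1 r2
      hA := hA1.trans hA12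
      hr := lt_min hr1 hr2
      hr1 := hrA.trans hr1'
      lam := fun n => d n 0
      mu := fun n => d n 1
      a1 := p1
      b1 := q1
      s1 := s1
      g1 := t1
      a2 := p2
      b2 := q2
      s2 := s2
      g2 := t2
      f := FF f
      fi := FF g
      hlam := fun n => by
        rw [hPX]; simp only [neg_neg]
        rw [Real.exp_log (lt_of_lt_of_le hC (hdb n 0).1)]
      hmu := fun n => by
        rw [hPY]; simp only [neg_neg]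
        rw [Real.exp_log (lt_of_lt_of_le hC (hdb n 1).1)]
      ha1 := fun n => (hp1 n).trans hA12
      hb1 := fun n => (hq1 n).trans hA12
      hs1 := fun n => (hs1 n).trans hA12
      hg1 := fun n => (ht1 n).trans hA12
      ha2 := fun n => (hp2 n).trans hA12
      hb2 := fun n => (hq2 n).trans hA12
      hs2 := fun n => (hs2 n).trans hA12
      hg2 := fun n => (ht2 n).trans hA12
      hf := hFd
      hfi := FF_diff g hg1
      left := fun n z => by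
        unfold FF
        rw [ContinuousLinearEquiv.symm_apply_apply, hg2 n,
          ContinuousLinearEquiv.apply_symm_apply]
      right := fun n z => by
        unfold FF
        rw [ContinuousLinearEquiv.symm_apply_apply, hg3 n,
          ContinuousLinearEquiv.apply_symm_apply]
      exp1 := fun n z hz => (hexp1 n z (hz.trans hrA)).trans
        (mul_le_mul_of_nonneg_right hA12 (hpos4 z))
      exp2 := fun n z hz => (hexp2 n z (hz.trans hrA)).trans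
        (mul_le_mul_of_nonneg_right hA12 (hpos5 z))
      lip := fun n z w hz hw => by
        refine (hL (FF f n) (d n 0) (d n 1) (hFd n).differentiableOn (hFb n) (hF0 n) (hlin n)
          z w (hz.trans hrB) (hw.trans hrB)).trans ?_
        refine mul_le_mul_of_nonneg_right (mul_le_mul_of_nonneg_right (le_max_right _ _) ?_)
          (norm_nonneg _)
        exact le_max_of_le_left (norm_nonneg _) }
  obtain ⟨Cj⟩ := exists_Conj Dn
  obtain ⟨φ, ψ, h1, h2, h3, h4, h5⟩ := main_prod Cj (1 / 2) (by norm_num)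
    (fun n₁ z hz n hn => by
      have := FF_contr f C D hD0 hD1 hb n₁ z hz n hn
      rw [hPa]
      exact this)
  refine ⟨fun z => ee.symm (φ (ee z)), fun w => ee.symm (ψ (ee w)), ?_, ?_, ?_, ?_, ?_⟩
  · intro z hz
    have hz' := (basin_iff f z).1 hz
    have h6 : DifferentiableAt ℂ φ (ee z) := h1 _ hz'
    exact ((ee.symm.differentiable _).comp z (h6.comp z ee.differentiableAt)).differentiableWithinAt
  · exact ee.symm.differentiable.comp (h2.comp ee.differentiable)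
  · intro w
    refine (basin_iff f _).2 ?_
    simp only [ContinuousLinearEquiv.apply_symm_apply]
    exact h3 (ee w)
  · intro z hz
    have hz' := (basin_iff f z).1 hz
    simp only [ContinuousLinearEquiv.apply_symm_apply]
    rw [h4 _ hz', ContinuousLinearEquiv.symm_apply_apply]
  · intro w
    simp only [ContinuousLinearEquiv.apply_symm_apply]
    rw [h5, ContinuousLinearEquiv.symm_apply_apply]

end Pool.Agent.Lib.MP_b771e3_an
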